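import Pool.Agent.H.MP_16ad8c_co.A

namespace Pool.Agent.Results.MP_16ad8c_co.No
open MeasureTheory

variable {V₁ V₂ : Type} [Fintype V₁] [Fintype V₂]

/-- The simple graph on `V₁ ⊕ V₂` with edge set `E`. -/
def gr (E : Finset (V₁ × V₂)) : SimpleGraph (V₁ ⊕ V₂) :=
  SimpleGraph.fromRel fun a b => ∃ e ∈ E, a = Sum.inl e.1 ∧ b = Sum.inr e.2

/-- Side-preserving involutive automorphisms whose fixed set is a vertex-cut. -/
def CutInv (E : Finset (V₁ × V₂)) : Set (Equiv.Perm V₁ × Equiv.Perm V₂) :=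
  {φ | (∀ v w, (φ.1 v, φ.2 w) ∈ E ↔ (v, w) ∈ E) ∧ φ = φ⁻¹ ∧
    ¬ ((gr E).induce {z | Sum.map φ.1 φ.2 z ≠ z}).Preconnected}

/-- The density `t(G, W)` for kernels on the unit square. -/
noncomputable def t (E : Finset (V₁ × V₂)) (W : unitInterval × unitInterval → ℝ) : ℝ :=
  ∫ z : (V₁ → unitInterval) × (V₂ → unitInterval), ∏ e ∈ E, W (z.1 e.1, z.2 e.2)
    ∂((Measure.pi fun _ => volume).prod (Measure.pi fun _ => volume))

open Pool.Agent.H.MP_16ad8c_co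

def p : Fin 3 → Fin 7 → Fin 7 := ![![0, 1, 4, 3, 2, 6, 5], ![0, 2, 1, 6, 4, 5, 3], ![1, 0, 2, 3, 6, 5, 4]]
def q : Fin 3 → Fin 7 → Fin 7 := ![![0, 1, 3, 2, 6, 5, 4], ![6, 1, 5, 3, 4, 2, 0], ![0, 6, 2, 3, 5, 4, 1]]
def ax : Fin 3 → Fin 7 := ![0, 4, 2]
def r (k : Fin 3) (w : Fin 7 × Fin 2) : Fin 7 × Fin 2 := (q k w.1, if w.1 = ax k then 1 - w.2 else w.2)
lemma hp : ∀ k x, p k (p k x) = x := by decide +kernel
lemma hr : ∀ k x, r k (r k x) = x := by decide +kernel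
def gen (k : Fin 3) : Equiv.Perm (Fin 7) × Equiv.Perm (Fin 7 × Fin 2) :=
  (Function.Involutive.toPerm (p k) (hp k), Function.Involutive.toPerm (r k) (hr k))

lemma gen_mem (k : Fin 3) : gen k ∈ CutInv E := by
  refine ⟨?_, rfl, fun h => ?_⟩
  · show ∀ v w, (p k v, r k w) ∈ E ↔ (v, w) ∈ E
    revert k; decide +kernel
  · have h1 : ∀ k i, r k (ax k, i) ≠ (ax k, i) := by decide +kernel
    have h2 : ∀ k v, (v, (ax k, 0)) ∈ E → p k v = v := by decide +kernel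
    obtain ⟨w⟩ := h ⟨Sum.inr (ax k, 0), fun e => h1 k 0 (Sum.inr_injective e)⟩
      ⟨Sum.inr (ax k, 1), fun e => h1 k 1 (Sum.inr_injective e)⟩
    have := w.adj_snd (SimpleGraph.Walk.not_nil_of_ne (by simp))
    generalize w.snd = z at this
    obtain ⟨z, hz⟩ := z
    simp only [SimpleGraph.comap_adj, Function.Embedding.subtype_apply, gr,
      SimpleGraph.fromRel_adj] at this
    obtain ⟨-, ⟨e, -, h, -⟩ | ⟨e, he, rfl, h⟩⟩ := this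
    · exact absurd h (by simp)
    · obtain ⟨v, w⟩ := e
      obtain rfl : (ax k, 0) = w := Sum.inr_injective h
      exact hz (congrArg Sum.inl (h2 k v he))

def words : List (List (Fin 3)) := [[], [0], [1], [2], [1, 0], [2, 0], [0, 1], [2, 1], [1, 2],
  [0, 1, 0], [2, 1, 0], [1, 2, 0], [2, 0, 1], [1, 2, 1], [0, 1, 2], [2, 0, 1, 0], [1, 2, 1, 0],
  [0, 1, 2, 0], [1, 2, 0, 1], [0, 1, 2, 1], [2, 0, 1, 2], [1, 2, 0, 1, 0], [0, 1, 2, 1, 0],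
  [2, 0, 1, 2, 0], [0, 1, 2, 0, 1], [2, 0, 1, 2, 1], [0, 2, 0, 1, 2], [1, 2, 0, 1, 2],
  [0, 1, 2, 0, 1, 0], [2, 0, 1, 2, 1, 0], [0, 2, 0, 1, 2, 0], [1, 2, 0, 1, 2, 0],
  [2, 0, 1, 2, 0, 1], [0, 2, 0, 1, 2, 1], [1, 2, 0, 1, 2, 1], [1, 0, 2, 0, 1, 2],
  [0, 1, 2, 0, 1, 2], [2, 0, 1, 2, 0, 1, 0], [0, 2, 0, 1, 2, 1, 0], [1, 2, 0, 1, 2, 1, 0],
  [1, 0, 2, 0, 1, 2, 0], [0, 1, 2, 0, 1, 2, 0]]

lemma orbit : ∀ e ∈ E, ∃ φ ∈ Subgroup.closure (CutInv E), (φ.1 0, φ.2 (0, 0)) = e := by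
  have h1 : ∀ e ∈ E, ∃ l ∈ words, (l.foldr p 0, l.foldr r (0, 0)) = e := by decide +kernel
  have h2 : ∀ l : List (Fin 3), ∃ φ ∈ Subgroup.closure (CutInv E),
      (φ.1 0, φ.2 (0, 0)) = (l.foldr p 0, l.foldr r (0, 0)) := by
    intro l
    induction l with
    | nil => exact ⟨1, one_mem _, rfl⟩
    | cons k l ih =>
      obtain ⟨φ, h, e⟩ := ih
      rw [Prod.mk.injEq] at e
      refine ⟨gen k * φ, mul_mem (Subgroup.subset_closure (gen_mem k)) h, ?_⟩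
      rw [List.foldr_cons, List.foldr_cons, ← e.1, ← e.2]; rfl
  intro e he
  obtain ⟨l, -, rfl⟩ := h1 e he
  exact h2 l

theorem result : ∃ (V₁ V₂ : Type) (_ : Fintype V₁) (_ : Fintype V₂) (E : Finset (V₁ × V₂)),
    E.Nonempty ∧ (gr E).Connected ∧
    (∀ e ∈ E, ∀ e' ∈ E, ∃ φ ∈ Subgroup.closure (CutInv E), (φ.1 e.1, φ.2 e.2) = e') ∧
    ∃ W₁ W₂ : unitInterval × unitInterval → ℝ, Measurable W₁ ∧ Measurable W₂ ∧
      (∃ C, ∀ z, |W₁ z| ≤ C ∧ |W₂ z| ≤ C) ∧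
      t E (fun z => |W₁ z|) ^ ((1 : ℝ) / E.card) + t E (fun z => |W₂ z|) ^ ((1 : ℝ) / E.card) <
        t E (fun z => |W₁ z + W₂ z|) ^ ((1 : ℝ) / E.card) := by
  refine ⟨Fin 7, Fin 7 × Fin 2, inferInstance, inferInstance, E, ⟨(0, (0, 0)), by decide⟩, ?_, ?_,
    fun z => W1 (q4 z.1) (q4 z.2), fun z => W2 (q4 z.1) (q4 z.2), ?_, ?_, ⟨10 ^ 10, fun z => ?_⟩, ?_⟩
  · have adj : ∀ v w, (v, w) ∈ E → (gr E).Reachable (Sum.inl v) (Sum.inr w) := fun v w h =>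
      SimpleGraph.Adj.reachable (by
        rw [gr, SimpleGraph.fromRel_adj]; exact ⟨by simp, Or.inl ⟨_, h, rfl, rfl⟩⟩)
    have h1 : ∀ v, ∃ w, (0, w) ∈ E ∧ (v, w) ∈ E := by decide +kernel
    have h2 : ∀ w, ∃ v, (v, w) ∈ E := by decide +kernel
    have h3 : ∀ v, (gr E).Reachable (Sum.inl 0) (Sum.inl v) := fun v => by
      obtain ⟨w, a, b⟩ := h1 v
      exact (adj _ _ a).trans (adj _ _ b).symm
    rw [SimpleGraph.connected_iff_exists_forall_reachable]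
    refine ⟨Sum.inl 0, ?_⟩
    rintro (v | w)
    · exact h3 v
    · obtain ⟨v, h⟩ := h2 w
      exact (h3 v).trans (adj _ _ h)
  · intro e he e' he'
    obtain ⟨φ, h, rfl⟩ := orbit e he
    obtain ⟨ψ, h', rfl⟩ := orbit e' he'
    exact ⟨ψ * φ⁻¹, mul_mem h' (inv_mem h), by simp⟩
  · exact (Measurable.of_discrete (f := fun z : Fin 4 × Fin 4 => (W1 z.1 z.2 : ℝ))).comp
      (q4_meas.prodMap q4_meas)
  · exact (Measurable.of_discrete (f := fun z : Fin 4 × Fin 4 => (W2 z.1 z.2 : ℝ))).comp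
      (q4_meas.prodMap q4_meas)
  · have h : ∀ a b, W1 a b ≤ 10 ^ 10 ∧ W2 a b ≤ 10 ^ 10 := by decide +kernel
    simp only [Nat.abs_cast]
    exact_mod_cast h _ _
  · simp only [← Nat.cast_add, Nat.abs_cast, t, E_card]
    rw [tI W1, tI W2, tI fun a b => W1 a b + W2 a b, ← G1, ← G2, ← G3]
    refine tri (by positivity) (by positivity) ?_
    have : (2 : ℝ) ^ 41 * (TN (G T1) + TN (G T2)) < TN (G T3) := by exact_mod_cast cert
    calc _ = (4⁻¹ : ℝ) ^ 21 * (2 ^ 41 * (TN (G T1) + TN (G T2))) := by ring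
      _ < _ := mul_lt_mul_of_pos_left this (by positivity)

end Pool.Agent.Results.MP_16ad8c_co.No
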